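import Pool.Agent.H55.FFM.TP

/-!
# Row RIE: functions with one pole of given order
-/

set_option autoImplicit false

open IsDedekindDomain Pool.Agent.H55.FFM

namespace Pool.Agent.H4.FFM

section

variable {k F S : Type} [Field k] [Field F] [Algebra k F] {v : S → F → ℤ}

theorem v_one (h : Vs k v) (s : S) : v s 1 = 0 := by
  have := h.cst s 1 one_ne_zero
  rwa [map_one] at this

theorem v_pow (h : Vs k v) (s : S) {a : F} (ha : a ≠ 0) (j : ℕ) : v s (a ^ j) = j * v s a := by
  induction j with
  | zero =>
    rw [pow_zero, v_one h]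
    simp
  | succ j ih =>
    rw [pow_succ, h.mul s _ _ (pow_ne_zero _ ha) ha, ih]
    push_cast
    ring

/-- several steps -/
theorem lev_steps {L : S → ℤ → Submodule k F}
    (hL : ∀ (U : Submodule k F) (s : S) (m : ℤ), FiniteDimensional k U →
      Module.finrank k (U ⊓ L s m : Submodule k F) ≤
        Module.finrank k (U ⊓ L s (m + 1) : Submodule k F) + 1)
    (U : Submodule k F) (hU : FiniteDimensional k U) (s : S) (m : ℤ) (t : ℕ) :
    Module.finrank k (U ⊓ L s m : Submodule k F) ≤
      Module.finrank k (U ⊓ L s (m + t) : Submodule k F) + t := by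
  induction t with
  | zero =>
    have h0 : m + ((0 : ℕ) : ℤ) = m := by simp
    rw [h0, Nat.add_zero]
  | succ t ih =>
    have h1 := hL U s (m + t) hU
    have h2 : m + ((t + 1 : ℕ) : ℤ) = m + t + 1 := by
      push_cast
      ring
    rw [h2]
    omega

theorem lev_inter [DecidableEq S] {L : S → ℤ → Submodule k F}
    (hL : ∀ (U : Submodule k F) (s : S) (m : ℤ), FiniteDimensional k U →
      Module.finrank k (U ⊓ L s m : Submodule k F) ≤
        Module.finrank k (U ⊓ L s (m + 1) : Submodule k F) + 1)
    (U : Submodule k F) (hfin : FiniteDimensional k U) (m : S → ℕ)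
    (hU : ∀ s, U ≤ L s (-(m s : ℤ))) (T : Finset S) :
    Module.finrank k U ≤
      Module.finrank k (U ⊓ T.inf (fun s => L s 0) : Submodule k F) + ∑ s ∈ T, m s := by
  induction T using Finset.induction_on with
  | empty =>
    rw [Finset.inf_empty, Finset.sum_empty, inf_top_eq, Nat.add_zero]
  | insert s T hs ih =>
    obtain ⟨W, hW⟩ : ∃ W : Submodule k F, W = U ⊓ T.inf (fun s => L s 0) := ⟨_, rfl⟩
    rw [← hW] at ih
    have hWU : W ≤ U := hW ▸ inf_le_left
    have hWf : FiniteDimensional k W := Submodule.finiteDimensional_of_le hWU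
    have h1 := lev_steps hL W hWf s (-(m s : ℤ)) (m s)
    rw [neg_add_cancel, inf_eq_left.2 (hWU.trans (hU s))] at h1
    have h2 : U ⊓ (insert s T).inf (fun s => L s 0) = W ⊓ L s 0 := by
      rw [Finset.inf_insert, hW, inf_assoc, inf_comm (L s 0)]
    rw [h2, Finset.sum_insert hs]
    omega

theorem exists_basis (R : Subalgebra k F) (htop : IntermediateField.adjoin k (R : Set F) = ⊤)
    (l : F) [FiniteDimensional (IntermediateField.adjoin k {l}) F] :
    ∃ b : Fin (Module.finrank (IntermediateField.adjoin k {l}) F) → F, (∀ i, b i ∈ R) ∧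
      LinearIndependent (IntermediateField.adjoin k {l}) b := by
  obtain ⟨K₀, hK⟩ : ∃ K₀ : IntermediateField k F, K₀ = IntermediateField.adjoin k {l} := ⟨_, rfl⟩
  have hfd : FiniteDimensional K₀ F := by
    rw [hK]
    infer_instance
  rw [← hK]
  have halg : Algebra.IsAlgebraic K₀ F := Algebra.IsAlgebraic.of_finite _ _
  have h1 : IntermediateField.adjoin K₀ (R : Set F) = ⊤ := by
    rw [eq_top_iff]
    intro z _
    have h6 : z ∈ IntermediateField.adjoin k (R : Set F) := by
      rw [htop]
      trivial
    have h7 : IntermediateField.adjoin k (R : Set F) ≤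
        (IntermediateField.adjoin K₀ (R : Set F)).restrictScalars k :=
      IntermediateField.adjoin_le_iff.2 (IntermediateField.subset_adjoin _ _)
    exact h7 h6
  have h2 : (IntermediateField.adjoin K₀ (R : Set F)).toSubalgebra =
      Algebra.adjoin K₀ (R : Set F) :=
    IntermediateField.adjoin_toSubalgebra_of_isAlgebraic fun x _ =>
      Algebra.IsAlgebraic.isAlgebraic x
  have h3 : Submodule.span K₀ (R : Set F) = ⊤ := by
    have h4 : Submodule.span K₀ (Submonoid.closure (R : Set F) : Set F) = ⊤ := by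
      rw [← Algebra.adjoin_eq_span, ← h2, h1]
      rfl
    have h5 : Submonoid.closure (R : Set F) = R.toSubsemiring.toSubmonoid :=
      Submonoid.closure_eq R.toSubsemiring.toSubmonoid
    rw [h5] at h4
    exact h4
  obtain ⟨b, hbR, hbs, hbl⟩ := exists_linearIndependent K₀ (R : Set F)
  rw [h3] at hbs
  let B : Module.Basis b K₀ F := Module.Basis.mk hbl (by
    rw [Subtype.range_coe, hbs])
  have hfb : Finite b := Module.Finite.finite_basis B
  have : Fintype b := Fintype.ofFinite b
  have hc : Fintype.card b = Module.finrank K₀ F := (Module.finrank_eq_card_basis B).symm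
  let e : Fin (Module.finrank K₀ F) ≃ b := (Fintype.equivFinOfCardEq hc).symm
  exact ⟨fun i => (e i : F), fun i => hbR (e i).2, hbl.comp _ e.injective⟩

/-- the powers of a transcendental element -/
theorem indep_pow {l : F} (hl : Transcendental k l) {d q : ℕ}
    {b : Fin d → F} (hb : LinearIndependent (IntermediateField.adjoin k {l}) b) :
    LinearIndependent k (fun p : Fin (q + 1) × Fin d => l ^ (p.1 : ℕ) * b p.2) := by
  have h1 : LinearIndependent k (fun j : ℕ => l ^ j) := by
    have h2 : LinearIndependent k (fun j : ℕ => (Polynomial.X : Polynomial k) ^ j) := by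
      have := (Polynomial.basisMonomials k).linearIndependent
      have e : (⇑(Polynomial.basisMonomials k) : ℕ → Polynomial k) =
          fun j => Polynomial.X ^ j := by
        funext j
        rw [Polynomial.coe_basisMonomials, Polynomial.X_pow_eq_monomial]
      rw [e] at this
      exact this
    have h3 := h2.map' (Polynomial.aeval l : Polynomial k →ₐ[k] F).toLinearMap
      (LinearMap.ker_eq_bot.2 (transcendental_iff_injective.1 hl))
    have e : (⇑(Polynomial.aeval l : Polynomial k →ₐ[k] F).toLinearMap ∘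
        fun j : ℕ => (Polynomial.X : Polynomial k) ^ j) = fun j => l ^ j := by
      funext j
      simp
    rw [e] at h3
    exact h3
  obtain ⟨m, hm⟩ : ∃ m : IntermediateField.adjoin k {l}, (m : F) = l :=
    ⟨⟨l, IntermediateField.mem_adjoin_simple_self k l⟩, rfl⟩
  have hmp : ∀ j : ℕ, ((m ^ j : IntermediateField.adjoin k {l}) : F) = l ^ j := fun j =>
    congrArg (fun x : F => x ^ j) hm
  have h4 : LinearIndependent k (fun j : Fin (q + 1) => m ^ (j : ℕ)) := by
    have h5 : LinearIndependent k (fun j : Fin (q + 1) => l ^ (j : ℕ)) :=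
      h1.comp _ Fin.val_injective
    refine LinearIndependent.of_comp (IntermediateField.adjoin k {l}).val.toLinearMap ?_
    have e : (⇑(IntermediateField.adjoin k {l}).val.toLinearMap ∘
        fun j : Fin (q + 1) => m ^ (j : ℕ)) = fun j : Fin (q + 1) => l ^ (j : ℕ) := by
      funext j
      exact hmp j
    rw [e]
    exact h5
  have h6 := linearIndependent_smul h4 hb
  have e : (fun p : Fin (q + 1) × Fin d => m ^ (p.1 : ℕ) • b p.2) =
      fun p => l ^ (p.1 : ℕ) * b p.2 := by
    funext p
    show ((m ^ (p.1 : ℕ) : IntermediateField.adjoin k {l}) : F) * b p.2 = _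
    rw [hmp]
  rw [e] at h6
  exact h6

end

theorem pf_RIE (hLEV : T_LEV) (hDGP : T_DGP) (hCSZ : T_CSZ) : T_RIE := by
  classical
  intro k F _ _ _ _ _ R S _ v hcv hpd s₀
  obtain ⟨⟨s₁⟩, hcst⟩ := hCSZ k F R S v hcv hpd
  have hV := hpd.toVs
  obtain ⟨l, hlR, hl0, hlneg⟩ := hpd.neg
  obtain ⟨L, hL, hstep⟩ := hLEV k F S v hV
  -- the orders of the poles
  obtain ⟨D, hD⟩ : ∃ D : S → ℕ, ∀ s, v s l = -(D s : ℤ) :=
    ⟨fun s => (-v s l).toNat, fun s => by
      have := hlneg s
      rw [Int.toNat_of_nonneg (by omega)]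
      omega⟩
  have hD1 : ∀ s, 1 ≤ D s := fun s => by
    have := hlneg s
    rw [hD] at this
    omega
  have hdg : dg k {l} = ∑ s, D s := by
    have h1 := hDGP k F R S v hcv hpd l hlR hl0
    have h2 : ∀ s, max 0 (-v s l) = (D s : ℤ) := fun s => by
      rw [hD]
      omega
    rw [Finset.sum_congr rfl fun s _ => h2 s] at h1
    exact_mod_cast h1
  have hdpos : 1 ≤ dg k {l} := by
    rw [hdg]
    exact (hD1 s₁).trans (Finset.single_le_sum (f := D) (fun _ _ => Nat.zero_le _)
      (Finset.mem_univ s₁))
  have hfd : FiniteDimensional (IntermediateField.adjoin k {l}) F :=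
    Module.finite_of_finrank_pos hdpos
  have htr : Transcendental k l := by
    intro hal
    have hfk : FiniteDimensional k (IntermediateField.adjoin k {l}) :=
      IntermediateField.adjoin.finiteDimensional hal.isIntegral
    have hik : Algebra.IsIntegral k (IntermediateField.adjoin k {l}) :=
      Algebra.IsIntegral.of_finite k _
    obtain ⟨c, hc⟩ := (IsAlgClosed.algebraMap_bijective_of_isIntegral
      (k := k) (K := IntermediateField.adjoin k {l})).2
      ⟨l, IntermediateField.mem_adjoin_simple_self k l⟩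
    have hc' : algebraMap k F c = l := congrArg Subtype.val hc
    have hc0 : c ≠ 0 := by
      rintro rfl
      rw [map_zero] at hc'
      exact hl0 hc'.symm
    have h1 := hV.cst s₁ c hc0
    rw [hc'] at h1
    have := hlneg s₁
    omega
  obtain ⟨b, hbR, hbl⟩ := exists_basis R hcv.top l
  have hd' : Module.finrank (IntermediateField.adjoin k {l}) F = dg k {l} := rfl
  obtain ⟨d, hd⟩ : ∃ d, d = Module.finrank (IntermediateField.adjoin k {l}) F := ⟨_, rfl⟩
  rw [hd'] at hd
  have hb0 : ∀ i, b i ≠ 0 := fun i => hbl.ne_zero i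
  obtain ⟨C, hC⟩ : ∃ C : ℕ, ∀ s i, -(C : ℤ) ≤ v s (b i) := by
    refine ⟨∑ s, ∑ i, (v s (b i)).natAbs, fun s i => ?_⟩
    have h1 : (v s (b i)).natAbs ≤ ∑ s, ∑ i, (v s (b i)).natAbs :=
      (Finset.single_le_sum (f := fun i => (v s (b i)).natAbs) (fun _ _ => Nat.zero_le _)
        (Finset.mem_univ i)).trans
      (Finset.single_le_sum (f := fun s => ∑ i, (v s (b i)).natAbs) (fun _ _ => Nat.zero_le _)
        (Finset.mem_univ s))
    omega
  obtain ⟨Val, hVal⟩ : ∃ Val : ℕ → Prop, ∀ j, Val j ↔ ∃ β ∈ R, β ≠ 0 ∧ v s₀ β = -(j : ℤ) ∧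
    ∀ s, s ≠ s₀ → 0 ≤ v s β := ⟨_, fun _ => Iff.rfl⟩
  -- the count
  have hcount : ∀ q : ℕ, q * D s₀ ≤ Fintype.card S * C + 1 +
      ((Finset.Icc 1 (q * D s₀ + C)).filter Val).card := by
    intro q
    obtain ⟨U, hU⟩ : ∃ U : Submodule k F, U = Submodule.span k
      (Set.range fun p : Fin (q + 1) × Fin (Module.finrank (IntermediateField.adjoin k {l}) F) =>
        l ^ (p.1 : ℕ) * b p.2) := ⟨_, rfl⟩
    have hUfin : FiniteDimensional k U := by
      rw [hU]
      exact FiniteDimensional.span_of_finite k (Set.finite_range _)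
    have hUdim : Module.finrank k U = (q + 1) * d := by
      rw [hU, finrank_span_eq_card (indep_pow htr hbl), Fintype.card_prod, Fintype.card_fin,
        Fintype.card_fin, hd]
      rfl
    have hUR : ∀ a ∈ U, a ∈ R := by
      intro a ha
      have h1 : U ≤ Subalgebra.toSubmodule R := by
        rw [hU, Submodule.span_le]
        rintro _ ⟨p, rfl⟩
        exact R.mul_mem (R.pow_mem hlR _) (hbR _)
      exact h1 ha
    have hUL : ∀ s, U ≤ L s (-((q * D s + C : ℕ) : ℤ)) := by
      intro s
      rw [hU, Submodule.span_le]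
      rintro _ ⟨p, rfl⟩
      rw [SetLike.mem_coe, hL]
      right
      rw [hV.mul s _ _ (pow_ne_zero _ hl0) (hb0 _), v_pow hV s hl0, hD]
      have h1 := hC s p.2
      have h2 : (p.1 : ℕ) * D s ≤ q * D s := Nat.mul_le_mul_right _ (Nat.lt_succ_iff.1 p.1.2)
      have h3 : ((p.1 : ℕ) : ℤ) * (D s : ℤ) ≤ q * D s := by exact_mod_cast h2
      push_cast
      linarith
    have h1 := lev_inter hstep U hUfin (fun s => q * D s + C) hUL (Finset.univ.erase s₀)
    obtain ⟨W, hW⟩ : ∃ W : Submodule k F,
      W = U ⊓ (Finset.univ.erase s₀).inf (fun s => L s 0) := ⟨_, rfl⟩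
    rw [← hW] at h1
    have hWU : W ≤ U := hW ▸ inf_le_left
    have hWf : FiniteDimensional k W := Submodule.finiteDimensional_of_le hWU
    have hWs : ∀ s, s ≠ s₀ → W ≤ L s 0 := by
      intro s hs
      rw [hW]
      exact inf_le_right.trans (Finset.inf_le (Finset.mem_erase.2 ⟨hs, Finset.mem_univ s⟩))
    -- going down
    have h2 : ∀ N : ℕ, Module.finrank k (W ⊓ L s₀ (-(N : ℤ)) : Submodule k F) ≤
        Module.finrank k (W ⊓ L s₀ 0 : Submodule k F) + ((Finset.Icc 1 N).filter Val).card := by
      intro N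
      induction N with
      | zero => simp
      | succ N ih =>
        have h3 := hstep W s₀ (-((N + 1 : ℕ) : ℤ)) hWf
        have h4 : -((N + 1 : ℕ) : ℤ) + 1 = -(N : ℤ) := by
          push_cast
          ring
        rw [h4] at h3
        have h5 : Finset.Icc 1 (N + 1) = insert (N + 1) (Finset.Icc 1 N) := by
          ext x
          simp only [Finset.mem_Icc, Finset.mem_insert]
          omega
        rw [h5, Finset.filter_insert]
        by_cases hv : Val (N + 1)
        · rw [if_pos hv, Finset.card_insert_of_notMem (by simp)]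
          omega
        · rw [if_neg hv]
          have h6 : W ⊓ L s₀ (-((N + 1 : ℕ) : ℤ)) ≤ W ⊓ L s₀ (-(N : ℤ)) := by
            intro a ha
            rw [Submodule.mem_inf] at ha ⊢
            refine ⟨ha.1, ?_⟩
            rw [hL]
            by_cases ha0 : a = 0
            · exact Or.inl ha0
            · right
              have h7 : -((N + 1 : ℕ) : ℤ) ≤ v s₀ a := ((hL s₀ _ a).1 ha.2).resolve_left ha0
              by_contra hcon
              apply hv
              rw [hVal]
              refine ⟨a, hUR a (hWU ha.1), ha0, ?_, fun s hs => ?_⟩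
              · push_cast at h7 ⊢
                omega
              · exact ((hL s 0 a).1 (hWs s hs ha.1)).resolve_left ha0
          have h8 : FiniteDimensional k (W ⊓ L s₀ (-(N : ℤ)) : Submodule k F) :=
            Submodule.finiteDimensional_of_le (inf_le_left.trans (le_refl W))
          have h9 := Submodule.finrank_mono h6
          omega
    have h3 : W ⊓ L s₀ (-((q * D s₀ + C : ℕ) : ℤ)) = W := inf_eq_left.2 (hWU.trans (hUL s₀))
    have h4 := h2 (q * D s₀ + C)
    rw [h3] at h4
    have h5 : Module.finrank k (W ⊓ L s₀ 0 : Submodule k F) ≤ 1 := by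
      have h6 : W ⊓ L s₀ 0 ≤ Submodule.span k {(1 : F)} := by
        intro a ha
        rw [Submodule.mem_inf] at ha
        by_cases ha0 : a = 0
        · rw [ha0]
          exact Submodule.zero_mem _
        · obtain ⟨c, hc⟩ := hcst a (hUR a (hWU ha.1)) ha0 fun s => by
            by_cases hs : s = s₀
            · rw [hs]
              exact ((hL s₀ 0 a).1 ha.2).resolve_left ha0
            · exact ((hL s 0 a).1 (hWs s hs ha.1)).resolve_left ha0
          rw [Submodule.mem_span_singleton]
          exact ⟨c, by rw [hc, Algebra.smul_def, mul_one]⟩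
      refine (Submodule.finrank_mono h6).trans ?_
      exact (finrank_span_le_card _).trans (by simp)
    have h6 : ∑ s ∈ Finset.univ.erase s₀, (q * D s + C) + (q * D s₀ + C) =
        q * d + Fintype.card S * C := by
      rw [Finset.sum_erase_add _ _ (Finset.mem_univ s₀), Finset.sum_add_distrib,
        ← Finset.mul_sum, ← hdg, ← hd, Finset.sum_const, Finset.card_univ, smul_eq_mul]
    have h7 : (q + 1) * d = q * d + d := by ring
    rw [hUdim, h7] at h1
    omega
  -- the set of the other orders is finite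
  have hfinite : {j : ℕ | 1 ≤ j ∧ ¬ Val j}.Finite := by
    by_contra hinf
    obtain ⟨t, ht, htc⟩ := Set.Infinite.exists_subset_card_eq hinf
      (Fintype.card S * C + C + 2)
    obtain ⟨q, hq⟩ : ∃ q, q = t.sup id := ⟨_, rfl⟩
    have h1 : t ⊆ (Finset.Icc 1 (q * D s₀ + C)).filter fun j => ¬ Val j := by
      intro j hj
      obtain ⟨h2, h3⟩ := ht hj
      rw [Finset.mem_filter, Finset.mem_Icc]
      refine ⟨⟨h2, ?_⟩, h3⟩
      have h4 : j ≤ q := by
        rw [hq]
        exact Finset.le_sup (f := id) hj
      have h5 : q * 1 ≤ q * D s₀ := Nat.mul_le_mul_left _ (hD1 s₀)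
      omega
    have h2 := Finset.card_le_card h1
    have h3 := Finset.card_filter_add_card_filter_not (s := Finset.Icc 1 (q * D s₀ + C)) Val
    rw [Nat.card_Icc] at h3
    have h4 := hcount q
    omega
  obtain ⟨B, hB⟩ := hfinite.bddAbove
  refine ⟨B + 1, fun j hj => ?_⟩
  rw [← hVal]
  by_contra hcon
  have := hB (show j ∈ {j : ℕ | 1 ≤ j ∧ ¬ Val j} from ⟨by omega, hcon⟩)
  omega

end Pool.Agent.H4.FFM
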