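import Pool.Agent.H55.FFM.TE

/-!
# ZMT: Zariski's main theorem for a map with finite fibres
-/

set_option autoImplicit false

open MvPolynomial
open Pool.Agent.H12.ZD (pmap)
open Pool.Agent.H18.HIT
open Pool.Agent.H55.FFM

namespace Pool.Agent.H4.FFM

/-- Zariski's main theorem for ring homomorphisms whose fibres over maximal ideals are finite -/
theorem zmt_general (R S : Type) [CommRing R] [CommRing S] (φ : R →+* S)
    (hft : φ.FiniteType)
    (hfin : ∀ q : PrimeSpectrum S, q.asIdeal.IsMaximal →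
      (PrimeSpectrum.comap φ ⁻¹' {PrimeSpectrum.comap φ q}).Finite ∧
      ∀ Q ∈ (PrimeSpectrum.comap φ ⁻¹' {PrimeSpectrum.comap φ q}), Q.asIdeal.IsMaximal) :
    ∃ (m : ℕ) (a r : Fin m → S), ∑ i, a i * r i = 1 ∧
      ∀ i, φ.IsIntegralElem (r i) ∧ ∀ b, ∃ n : ℕ, φ.IsIntegralElem (r i ^ n * b) := by
  letI : Algebra R S := φ.toAlgebra
  haveI : Algebra.FiniteType R S := hft
  obtain ⟨Z, hZ⟩ : ∃ Z : Set S, Z = {r | IsIntegral R r ∧ ∀ x, ∃ m : ℕ, IsIntegral R (r ^ m * x)} :=
    ⟨_, rfl⟩
  have htop : Ideal.span Z = ⊤ := by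
    by_contra hne
    obtain ⟨M, hM, hle⟩ := Ideal.exists_le_maximal _ hne
    haveI := hM.isPrime
    obtain ⟨h1, h2⟩ := hfin ⟨M, hM.isPrime⟩ hM
    have hq : Algebra.QuasiFiniteAt R M := by
      refine Algebra.QuasiFiniteAt.of_isOpen_singleton_fiber (R := R) (S := S)
        ⟨M, hM.isPrime⟩ ?_
      obtain ⟨X, hX⟩ : ∃ X : Set (PrimeSpectrum S), X = PrimeSpectrum.comap (algebraMap R S) ⁻¹'
        {PrimeSpectrum.comap (algebraMap R S) ⟨M, hM.isPrime⟩} := ⟨_, rfl⟩
      haveI : Finite (PrimeSpectrum.comap (algebraMap R S) ⁻¹'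
        {PrimeSpectrum.comap (algebraMap R S) ⟨M, hM.isPrime⟩}) := h1
      haveI : T1Space (PrimeSpectrum.comap (algebraMap R S) ⁻¹'
        {PrimeSpectrum.comap (algebraMap R S) ⟨M, hM.isPrime⟩}) := by
        refine ⟨fun x => ?_⟩
        have h3 : ({x} : Set (PrimeSpectrum.comap (algebraMap R S) ⁻¹'
            {PrimeSpectrum.comap (algebraMap R S) ⟨M, hM.isPrime⟩})) =
            Subtype.val ⁻¹' {(x : PrimeSpectrum S)} := by
          ext y
          simp [Subtype.ext_iff]
        rw [h3]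
        exact ((PrimeSpectrum.isClosed_singleton_iff_isMaximal _).2
          (h2 _ x.2)).preimage continuous_subtype_val
      exact isOpen_discrete _
    obtain ⟨r, hr, hri, hrx⟩ := Algebra.zariskisMainProperty_iff.1
      (Algebra.ZariskisMainProperty.of_finiteType (R := R) M)
    apply hr
    apply hle
    apply Ideal.subset_span
    rw [hZ]
    exact ⟨hri, hrx⟩
  have h1 : (1 : S) ∈ Submodule.span S Z := by
    change (1 : S) ∈ Ideal.span Z
    rw [htop]
    trivial
  obtain ⟨n, f, g, hfg⟩ := Submodule.mem_span_set'.1 h1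
  have h2 : ∀ z ∈ Z, IsIntegral R z ∧ ∀ x, ∃ m : ℕ, IsIntegral R (z ^ m * x) := by
    intro z hz
    rw [hZ] at hz
    exact hz
  exact ⟨n, f, fun i => g i, hfg, fun i => h2 _ (g i).2⟩

section points

variable {N : ℕ} {k : Type} [Field k]

theorem mem_vi {x : Fin N → k} {p : Po N k} :
    p ∈ vanishingIdeal k ({x} : Set (Fin N → k)) ↔ eval x p = 0 := by
  rw [mem_vanishingIdeal_iff]
  constructor
  · intro h
    exact h x rfl
  · intro h y hy
    rw [Set.mem_singleton_iff] at hy
    rw [hy]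
    exact h

theorem eval_aeval (G : Tup N k) (x : Fin N → k) (f : Po N k) :
    eval x (aeval G f) = eval (pmap G x) f := by
  induction f using MvPolynomial.induction_on with
  | C a =>
    rw [aeval_C, eval_C]
    exact eval_C a
  | add p q hp hq => rw [map_add, map_add, map_add, hp, hq]
  | mul_X p i hp =>
    rw [map_mul, map_mul, map_mul, hp, aeval_X, eval_X]
    rfl

theorem pf_ZMT : T_ZMT := by
  intro N k _ _ G hG
  have hmax : ∀ x : Fin N → k, (vanishingIdeal k ({x} : Set (Fin N → k))).IsMaximal := fun x =>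
    isMaximal_iff_eq_vanishingIdeal_singleton.2 ⟨x, rfl⟩
  refine zmt_general (Po N k) (Po N k) (aeval G : Po N k →ₐ[k] Po N k).toRingHom ?_ ?_
  · apply RingHom.FiniteType.of_comp_finiteType (f := (algebraMap k (Po N k)))
    have h1 : (aeval G : Po N k →ₐ[k] Po N k).toRingHom.comp (algebraMap k (Po N k)) =
        algebraMap k (Po N k) := (aeval G : Po N k →ₐ[k] Po N k).comp_algebraMap
    rw [h1]
    exact RingHom.finiteType_algebraMap.2 inferInstance
  intro q hq
  obtain ⟨x, hx⟩ := isMaximal_iff_eq_vanishingIdeal_singleton.1 hq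
  -- the primes of the fibre
  have key : ∀ Q ∈ PrimeSpectrum.comap (aeval G : Po N k →ₐ[k] Po N k).toRingHom ⁻¹'
      {PrimeSpectrum.comap (aeval G : Po N k →ₐ[k] Po N k).toRingHom q},
      ∃ x' : Fin N → k, pmap G x' = pmap G x ∧ vanishingIdeal k {x'} = Q.asIdeal := by
    classical
    intro Q hQ
    have hQ' : ∀ f : Po N k, aeval G f ∈ Q.asIdeal ↔ eval (pmap G x) f = 0 := by
      intro f
      have h1 := congrArg PrimeSpectrum.asIdeal hQ
      have h2 : f ∈ (PrimeSpectrum.comap
          (aeval G : Po N k →ₐ[k] Po N k).toRingHom Q).asIdeal ↔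
          f ∈ (PrimeSpectrum.comap
          (aeval G : Po N k →ₐ[k] Po N k).toRingHom q).asIdeal := by rw [h1]
      have h3 : aeval G f ∈ Q.asIdeal ↔ aeval G f ∈ q.asIdeal := h2
      rw [h3, hx, mem_vi, eval_aeval]
    by_contra hcon
    push Not at hcon
    have hnle : ∀ x' ∈ (hG (pmap G x)).toFinset, ∃ g ∈ vanishingIdeal k {x'}, g ∉ Q.asIdeal := by
      intro x' hx'
      rw [Set.Finite.mem_toFinset] at hx'
      by_contra h1
      push Not at h1
      exact hcon x' hx' ((hmax x').eq_of_le Q.isPrime.ne_top h1)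
    choose! g hg hgQ using hnle
    have hprod : ∏ x' ∈ (hG (pmap G x)).toFinset, g x' ∉ Q.asIdeal := by
      intro h1
      obtain ⟨x', hx', h2⟩ := (Q.isPrime.prod_mem_iff).1 h1
      exact hgQ x' hx' h2
    apply hprod
    have hjac : Q.asIdeal.jacobson = Q.asIdeal :=
      IsJacobsonRing.out inferInstance Q.isPrime.isRadical
    rw [← hjac, Ideal.jacobson, Ideal.mem_sInf]
    rintro J ⟨hJ1, hJ2⟩
    obtain ⟨x'', hx''⟩ := isMaximal_iff_eq_vanishingIdeal_singleton.1 hJ2
    have h3 : pmap G x'' = pmap G x := by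
      funext i
      have h4 : aeval G (X i - C (pmap G x i) : Po N k) ∈ Q.asIdeal := by
        rw [hQ', map_sub, eval_X, eval_C, sub_self]
      have h5 := hJ1 h4
      rw [hx'', mem_vi, eval_aeval, map_sub, eval_X, eval_C] at h5
      exact sub_eq_zero.1 h5
    have h6 : x'' ∈ (hG (pmap G x)).toFinset := by
      rw [Set.Finite.mem_toFinset]
      exact h3
    rw [← Finset.mul_prod_erase _ _ h6]
    apply Ideal.mul_mem_right
    rw [hx'']
    exact hg x'' h6
  constructor
  · refine ((hG (pmap G x)).image fun x' =>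
      (⟨vanishingIdeal k {x'}, (hmax x').isPrime⟩ : PrimeSpectrum (Po N k))).subset ?_
    intro Q hQ
    obtain ⟨x', h1, h2⟩ := key Q hQ
    exact ⟨x', h1, PrimeSpectrum.ext h2⟩
  · intro Q hQ
    obtain ⟨x', h1, h2⟩ := key Q hQ
    rw [← h2]
    exact hmax x'

end points

end Pool.Agent.H4.FFM
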